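import Pool.Agent.Y674.TR.Stm

/-! Points divisible by three (job TR-GRP of helper674). -/

set_option autoImplicit false

namespace Pool.Agent.Y876.TR

open WeierstrassCurve Polynomial Pool.Agent.Y674.TR

/-- the multiplication by three on `y² = x³ + A x + B` -/
theorem core {F : Type*} [Field F] [CharZero F] [DecidableEq F] {W : Affine F} {A B : F}
    (h1 : W.a₁ = 0) (h2 : W.a₂ = 0) (h3 : W.a₃ = 0) (h4 : W.a₄ = A) (h6 : W.a₆ = B)
    {x y : F} (hP : W.Nonsingular x y) (Q : W.Point)
    (hQ : 3 • Q = Affine.Point.some x y hP) :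
    ∃ X : F, 3 * X ^ 4 + 6 * A * X ^ 2 + 12 * B * X - A ^ 2 ≠ 0 ∧
      x * (3 * X ^ 4 + 6 * A * X ^ 2 + 12 * B * X - A ^ 2) ^ 2 =
        X * (3 * X ^ 4 + 6 * A * X ^ 2 + 12 * B * X - A ^ 2) ^ 2 -
          8 * (X ^ 3 + A * X + B) * (3 * X ^ 2 + A) *
            (3 * X ^ 4 + 6 * A * X ^ 2 + 12 * B * X - A ^ 2) +
          64 * (X ^ 3 + A * X + B) ^ 3 := by
  have h20 : (2 : F) ≠ 0 := two_ne_zero
  rcases Q with _ | ⟨X, Y, h⟩
  · exfalso
    rw [← Affine.Point.zero_def, smul_zero] at hQ
    exact Affine.Point.some_ne_zero hP hQ.symm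
  · have heq : Y ^ 2 = X ^ 3 + A * X + B := by
      have := (W.equation_iff X Y).1 h.1
      rw [h1, h2, h3, h4, h6] at this
      linear_combination this
    have hneg : ∀ a b : F, W.negY a b = -b := fun a b => by
      rw [Affine.negY, h1, h3]
      ring
    set ψ := 3 * X ^ 4 + 6 * A * X ^ 2 + 12 * B * X - A ^ 2 with hψ
    have hψ1 : ψ = 12 * X * Y ^ 2 - (3 * X ^ 2 + A) ^ 2 := by
      rw [heq, hψ]
      ring
    have h3Q : (3 : ℕ) • (Affine.Point.some X Y h) =
        Affine.Point.some X Y h + Affine.Point.some X Y h + Affine.Point.some X Y h := by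
      rw [succ_nsmul, two_nsmul]
    rw [h3Q] at hQ
    by_cases hY : Y = 0
    · -- a point of order two
      have hself : Affine.Point.some X Y h + Affine.Point.some X Y h = 0 :=
        Affine.Point.add_self_of_Y_eq (by rw [hneg, hY, neg_zero])
      rw [hself, zero_add] at hQ
      have hxX : X = x := by
        injection hQ
      have hf : X ^ 3 + A * X + B = 0 := by rw [← heq, hY]; ring
      have hf' : 3 * X ^ 2 + A ≠ 0 := by
        have hns := (W.nonsingular_iff X Y).1 h
        rw [h1, h2, h3, h4, hY] at hns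
        rcases hns.2 with h5 | h5
        · intro h6'
          apply h5
          linear_combination -h6'
        · exact absurd (by ring) h5
      refine ⟨X, ?_, ?_⟩
      · rw [← hψ, hψ1, hY]
        have := pow_ne_zero 2 hf'
        intro h7
        exact this (by linear_combination -h7)
      · rw [hf, ← hxX]
        ring
    · have hYn : Y ≠ W.negY X Y := by
        rw [hneg]
        intro h5
        have : 2 * Y = 0 := by linear_combination h5
        rcases mul_eq_zero.1 this with h6' | h6'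
        · exact h20 h6'
        · exact hY h6'
      set l := (3 * X ^ 2 + A) / (2 * Y) with hl
      have hsl : W.slope X X Y Y = l := by
        rw [Affine.slope_of_Y_ne rfl hYn, hneg, h1, h2, h4, hl]
        congr 1 <;> ring
      have hlY : 2 * Y * l = 3 * X ^ 2 + A := by
        rw [hl]
        field_simp
      set X2 := l ^ 2 - 2 * X with hX2
      set Y2 := -(l * (X2 - X) + Y) with hY2
      have hx2 : W.addX X X (W.slope X X Y Y) = X2 := by
        rw [hsl, Affine.addX, h1, h2, hX2]
        ring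
      have hy2 : W.addY X X Y (W.slope X X Y Y) = Y2 := by
        rw [Affine.addY, Affine.negAddY, hneg, hx2, hsl, hY2]
      obtain ⟨hns, hadd⟩ : ∃ hns : W.Nonsingular X2 Y2,
          Affine.Point.some X Y h + Affine.Point.some X Y h = Affine.Point.some X2 Y2 hns := by
        rw [Affine.Point.add_self_of_Y_ne hYn]
        refine ⟨?_, ?_⟩
        · rw [← hx2, ← hy2]
          exact Affine.nonsingular_add h h fun hxy => hYn hxy.right
        · congr 1
      have hdiff : 4 * Y ^ 2 * (X - X2) = ψ := by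
        rw [hψ1, hX2]
        linear_combination -(2 * Y * l + (3 * X ^ 2 + A)) * hlY
      rw [hadd] at hQ
      by_cases hXX : X2 = X
      · exfalso
        have h5 : Affine.Point.some X2 Y2 hns + Affine.Point.some X Y h = 0 := by
          refine Affine.Point.add_of_Y_eq hXX ?_
          rw [hneg, hY2, hXX]
          ring
        rw [h5] at hQ
        exact Affine.Point.some_ne_zero hP hQ.symm
      · have hψ0 : ψ ≠ 0 := by
          rw [← hdiff]
          exact mul_ne_zero (mul_ne_zero (by norm_num) (pow_ne_zero 2 hY))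
            (sub_ne_zero.2 fun h => hXX h.symm)
        rw [Affine.Point.add_of_X_ne hXX] at hQ
        have hxx : W.addX X2 X (W.slope X2 X Y2 Y) = x := by
          injection hQ
        rw [Affine.slope_of_X_ne hXX, Affine.addX, h1, h2] at hxx
        refine ⟨X, hψ0, ?_⟩
        have hd : X2 - X ≠ 0 := sub_ne_zero.2 hXX
        -- the slope
        have hm : (Y2 - Y) / (X2 - X) * ψ = -l * ψ + 8 * Y ^ 3 := by
          have e1 : (Y2 - Y) / (X2 - X) * (X2 - X) = Y2 - Y := div_mul_cancel₀ _ hd
          have e2 : ψ = -(4 * Y ^ 2) * (X2 - X) := by rw [← hdiff]; ring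
          have e3 : (Y2 - Y) / (X2 - X) * ψ = -(4 * Y ^ 2) * (Y2 - Y) := by
            rw [e2]
            linear_combination -(4 * Y ^ 2) * e1
          rw [e3, e2, hY2]
          ring
        rw [← hxx, ← heq]
        set m := (Y2 - Y) / (X2 - X) with hmdef
        have e4 : (m * ψ) ^ 2 = (-l * ψ + 8 * Y ^ 3) ^ 2 := by rw [hm]
        rw [hX2]
        linear_combination e4 - 8 * Y ^ 2 * ψ * hlY

/-- **GRP** -/
theorem grp : GRP := by
  intro K _ _ _ A B x y h Q hQ
  obtain ⟨t, -, ht⟩ := core (W := Pool.Agent.Y674.TR.E K A B) (A := (A : K)) (B := (B : K)) rfl rfl rfl rfl rfl h Q hQ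
  refine ⟨t, ?_⟩
  have e1 : aeval t (f3 A B) = t ^ 3 + A * t + B := by
    unfold f3
    simp
  have hn3 : aeval t (3 : ℤ[X]) = (3 : K) := map_ofNat _ 3
  have hn6 : aeval t (6 : ℤ[X]) = (6 : K) := map_ofNat _ 6
  have hn8 : aeval t (8 : ℤ[X]) = (8 : K) := map_ofNat _ 8
  have hn12 : aeval t (12 : ℤ[X]) = (12 : K) := map_ofNat _ 12
  have hn64 : aeval t (64 : ℤ[X]) = (64 : K) := map_ofNat _ 64
  have e2 : aeval t (ψ3 A B) = 3 * t ^ 4 + 6 * (A : K) * t ^ 2 + 12 * (B : K) * t - (A : K) ^ 2 := by
    unfold ψ3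
    simp
    rw [hn3, hn6, hn12]
  have e3 : aeval t (φ3 A B) = 64 * (aeval t (f3 A B)) ^ 3 - 8 * aeval t (f3 A B) *
      (3 * t ^ 2 + A) * aeval t (ψ3 A B) + t * aeval t (ψ3 A B) ^ 2 := by
    unfold φ3
    simp
    rw [hn3, hn8, hn64]
  rw [e3, e1, e2]
  linear_combination -ht

end Pool.Agent.Y876.TR
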